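import Pool.Agent.Helper9.RS.Prod3

/-!
# Models of rational surfaces over arithmetic curves, and their products
-/

set_option autoImplicit false

namespace Pool.Agent.Results.MP_e93a6a_ag.RationalSurfaces

open AlgebraicGeometry Pool.Agent.Helper9.RS

/-- Let `P` be a class of schemes with the closure properties `ProdClosed`. Then `P` contains all
finite products over `Spec ℤ` of spectra of rings `T` with `CurveProd T`, of models of smooth
proper geometrically rational surfaces over arithmetic curves (with arbitrary closed fibres), and of
ruled geometric models. -/
theorem result (P : Scheme.{0} → Prop) (hP : ProdClosed P) (W : Scheme.{0})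
    (hW : ModelProd W) : P W :=
  modelProd_main hP hW

end Pool.Agent.Results.MP_e93a6a_ag.RationalSurfaces
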