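import Pool.Agent.Helper12.SS.ALim
import Pool.Agent.Helper40.US.Unb
import Pool.Agent.Helper14.SP.Main
import Pool.Agent.Helper29.SP4.Main

set_option autoImplicit false

namespace Pool.Agent.Results.MP_023469_lc.SmallSets

open FirstOrder Filter Pool.Agent.Helper20.Spectra Pool.Agent.Helper14.SS Pool.Agent.Helper12.SS
open Pool.Agent.Helper58.QD (PolyHier)

/-- Let `SFm L 0 0` be the sentences over `L` with first-order quantifiers and set quantifiers, and
let `specS s Φ` be the set of the sizes `n ≥ 1` of the models of `Φ`, where in an `n`-element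
structure the set variables range over the sets with at most `s n` elements. `RudAdv` is the class
RUD/lin of the sets which are rudimentary with an advice of `O(log n)` bits, and `PolyHier` is the
polynomial-time hierarchy.

(a) There is one sentence `Φ` such that for every function `s` with limit infinity the set
`specS s Φ` is not in RUD/lin.
(b) There is one sentence `Φ` such that for every function `s` which is eventually at least
`ℓ ^ c`, `ℓ` the length of `n` in binary, for every `c`, the set `specS s Φ` is not in the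
polynomial-time hierarchy.
If `s` is such a power `ℓ ^ c`, on the other hand, the sets in `SetSpectrum s` are all in the
polynomial-time hierarchy if and only if the first-order spectra are.
(c) If all first-order spectra are in RUD/lin, there is a sentence `φ` over `({0, ..., n - 1}, +, ·)`
such that for every `s` with limit infinity the set `arithS s φ` of all `n ≥ 1` for which `φ`
holds in this structure (with sets of at most `s n` elements) is not in RUD/lin; so it is not a
first-order spectrum, while it is in the class `SetSpectrum s`.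
(d) The same for the polynomial-time hierarchy, for the functions `s` of (b).
(e) The classes: `SetSpectrum s` contains all first-order spectra, and is equal to the class of the
first-order spectra if `s` is bounded and nondecreasing; RUD/lin and the polynomial-time hierarchy
contain all rudimentary sets.
(f) There is an unbounded `s` such that `SetSpectrum s` is contained in every family of sets which
contains the first-order spectra and is closed under complements and intersections; for this `s`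
the first-order spectra are exactly the rudimentary sets of positive integers if and only if the
sets in `SetSpectrum s` are exactly these sets. -/
theorem result :
    (∃ (L : FirstOrder.Language.{0, 0}) (_ : Finite (Σ l, L.Functions l))
      (_ : Finite (Σ l, L.Relations l)) (Φ : SFm L 0 0),
      ∀ s : ℕ → ℕ, Tendsto s atTop atTop → ¬ RudAdv (specS s Φ)) ∧
    (∃ (L : FirstOrder.Language.{0, 0}) (_ : Finite (Σ l, L.Functions l))
      (_ : Finite (Σ l, L.Relations l)) (Φ : SFm L 0 0),
      ∀ s : ℕ → ℕ, (∀ c : ℕ, ∃ n₀, ∀ n, n₀ ≤ n → (Nat.log 2 n + 1) ^ c ≤ s n) →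
        ¬ PolyHier (specS s Φ)) ∧
    (∀ c : ℕ, (∀ A : Set ℕ, SetSpectrum (fun n => (Nat.log 2 n + 1) ^ c) A → PolyHier A) ↔
      ∀ A : Set ℕ, IsSpectrum A → PolyHier A) ∧
    ((∀ A : Set ℕ, IsSpectrum A → RudAdv A) → ∃ φ : SFm ArL 0 0,
      ∀ s : ℕ → ℕ, Tendsto s atTop atTop →
        ¬ RudAdv (arithS s φ) ∧ ¬ IsSpectrum (arithS s φ) ∧ SetSpectrum s (arithS s φ)) ∧
    ((∀ A : Set ℕ, IsSpectrum A → PolyHier A) → ∃ φ : SFm ArL 0 0,
      ∀ s : ℕ → ℕ, (∀ c : ℕ, ∃ n₀, ∀ n, n₀ ≤ n → (Nat.log 2 n + 1) ^ c ≤ s n) →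
        ¬ PolyHier (arithS s φ) ∧ ¬ IsSpectrum (arithS s φ) ∧ SetSpectrum s (arithS s φ)) ∧
    (∀ (s : ℕ → ℕ) (A : Set ℕ), IsSpectrum A → SetSpectrum s A) ∧
    (∀ s : ℕ → ℕ, Monotone s → (∃ b, ∀ n, s n ≤ b) →
      ∀ A : Set ℕ, SetSpectrum s A ↔ IsSpectrum A) ∧
    (∀ A : Set ℕ, IsRudimentary A → RudAdv A ∧ PolyHier A) ∧
    ∃ s : ℕ → ℕ, (∀ b, ∃ n, b < s n) ∧
      (∀ A : Set ℕ, SetSpectrum s A → ∀ D : Set (Set ℕ), (∀ B, IsSpectrum B → B ∈ D) →
        (∀ B ∈ D, Bᶜ ∈ D) → (∀ B ∈ D, ∀ C ∈ D, B ∩ C ∈ D) → A ∈ D) ∧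
      ((∀ A : Set ℕ, 0 ∉ A → (IsSpectrum A ↔ IsRudimentary A)) ↔
        ∀ A : Set ℕ, 0 ∉ A → (SetSpectrum s A ↔ IsRudimentary A)) := by
  obtain ⟨h1, h2⟩ := smallSetsLim
  obtain ⟨h5, h6⟩ := Pool.Agent.Helper14.SP.smallSetsPH
  obtain ⟨_, _, h3, h4⟩ := Pool.Agent.Helper14.SS.smallSets
  refine ⟨h1, h5, Pool.Agent.Helper29.SP4.polylog_iff, fun hQ => ?_, fun hQ => ?_, fun s A hA => h3 s A (Or.inl hA), h4,
    fun A hA => ⟨Pool.Agent.Helper38.DG.advOf A hA, Pool.Agent.Helper14.QG.rudPH A hA⟩,
    Pool.Agent.Helper40.US.unbounded_iff⟩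
  · obtain ⟨φ, hφ⟩ := h2 hQ
    exact ⟨φ, fun s hs => ⟨hφ s hs, fun hsp => hφ s hs (hQ _ hsp), h3 s _ (Or.inr ⟨φ, rfl⟩)⟩⟩
  · obtain ⟨φ, hφ⟩ := h6 hQ
    exact ⟨φ, fun s hs => ⟨hφ s hs, fun hsp => hφ s hs (hQ _ hsp), h3 s _ (Or.inr ⟨φ, rfl⟩)⟩⟩

end Pool.Agent.Results.MP_023469_lc.SmallSets
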