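import Pool.Agent.Helper87.CC.Tame
import Pool.Agent.Helper87.CC.Defs2

/-!
# Tame rings: fibrations over arithmetic curves and surfaces, systems of equations of low degree
-/

namespace Pool.Agent.Results.MP_e93a6a_ag.TameRings

open AlgebraicGeometry TensorProduct Pool.Agent.Helper87.CC

/-- Let `P` be a class of schemes which is `ArithClosed` and let `B` be a tame ring. Then `Spec B`
belongs to `P`, and the products of `B` with the stable rings are stable. -/
theorem result (P : Scheme.{0} → Prop) (hP : ArithClosed P) (B : Type) [CommRing B]
    (hB : Tame B) : P (Spec (CommRingCat.of B)) ∧ Multiplier P B := by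
  have h : Multiplier P B := hB _ (tameClosed_mult (stable_ops hP))
  refine ⟨?_, h⟩
  have h1 := (MultS.mem (stable_ops hP) h).2 ℤ .base
  obtain ⟨e, -⟩ := (isTen ℤ B).symm.equiv (IsTen.int B)
  exact p_iso hP (ft_ten inferInstance h.1) e h1

end Pool.Agent.Results.MP_e93a6a_ag.TameRings
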