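import Pool.Agent.Helper29.WV.ArrB
import Pool.Agent.Helper29.WV.Iso
import Pool.Agent.Helper29.WV.NW

/-!
MP_722e70_co, question 1 for trees.

`Arrows`, `REquiv`, `KPend`, `KWoven`, `Woven` are defined in `Pool.Agent.Helper29.WV.Defs`, the explicit
trees `Star s` and `Cat lam k` in `Pool.Agent.Helper29.WV.Wov`.
-/

namespace Pool.Agent.Results.MP_722e70_co.TreesWoven

open SimpleGraph WV

/-- (1) If a finite tree `T` satisfies `(T, K_t) ~ (T, K_t . K_2)` for some `t >= 3` then `T` is woven.
(2) The woven trees are exactly: the one vertex tree, the stars with at least two edges, and the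
caterpillars `C(lam,k)` with `k < lam`. -/
theorem result :
    (∀ (V : Type) [Fintype V] (T : SimpleGraph V), T.IsTree →
      ∀ t : ℕ, 3 ≤ t → REquiv T (⊤ : SimpleGraph (Fin t)) T (KPend t) → Woven T) ∧
    (∀ (V : Type) [Fintype V] (T : SimpleGraph V), T.IsTree →
      (Woven T ↔ Fintype.card V = 1 ∨ (∃ s : ℕ, 2 ≤ s ∧ Nonempty (T ≃g Star s)) ∨
        ∃ lam k : ℕ, k < lam ∧ Nonempty (T ≃g Cat lam k))) := by
  have fam : ∀ (V : Type) [Fintype V] (T : SimpleGraph V), T.IsTree → ¬ Good T →
      Fintype.card V = 1 ∨ (∃ s : ℕ, 2 ≤ s ∧ Nonempty (T ≃g Star s)) ∨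
        ∃ lam k : ℕ, k < lam ∧ Nonempty (T ≃g Cat lam k) := by
    intro V _ T hT hG
    by_cases h1 : Fintype.card V = 1
    · exact Or.inl h1
    · right
      have hpos : 0 < Fintype.card V := Fintype.card_pos_iff.2 hT.connected.nonempty
      obtain ⟨R, hR, h⟩ := thmA hT (by omega) hG
      subst hR
      rcases h with h | ⟨d, dp, h⟩
      · exact Or.inl (star_of_fam h)
      · exact Or.inr (cat_of_fam h)
  have wov : ∀ (V : Type) [Fintype V] (T : SimpleGraph V),
      (Fintype.card V = 1 ∨ (∃ s : ℕ, 2 ≤ s ∧ Nonempty (T ≃g Star s)) ∨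
        ∃ lam k : ℕ, k < lam ∧ Nonempty (T ≃g Cat lam k)) → Woven T := by
    rintro V _ T (h | ⟨s, hs, ⟨e⟩⟩ | ⟨lam, k, hk, ⟨e⟩⟩)
    · exact woven_one h
    · exact (woven_star hs).iso e.symm
    · exact (woven_cat hk).iso e.symm
  constructor
  · intro V _ T hT t ht hEq
    by_contra hW
    by_cases hG : Good T
    · have hcard : 2 ≤ Fintype.card V := by
        by_contra hc
        have hpos : 0 < Fintype.card V := Fintype.card_pos_iff.2 hT.connected.nonempty
        exact hW (woven_one (by omega))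
      obtain ⟨r, rfl⟩ : ∃ r, t = r + 2 := ⟨t - 2, by omega⟩
      exact thmB hT hcard hG r (by omega) hEq
    · exact hW (wov V T (fam V T hT hG))
  · intro V _ T hT
    constructor
    · intro hW
      by_contra hc
      by_cases hG : Good T
      · exact good_not_woven hT hG hW
      · exact hc (fam V T hT hG)
    · exact wov V T

end Pool.Agent.Results.MP_722e70_co.TreesWoven
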