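import Pool.Agent.Helper29.GW.Main
import Pool.Agent.Helper58.GW.Trans
import Pool.Agent.Helper29.PHW.Wild

set_option autoImplicit false

namespace Pool.Agent.Results.MP_023469_lc.WidthGap

open Filter Pool.Agent.Helper20.Spectra Pool.Agent.Helper20.OP Pool.Agent.Helper29.TD
  Pool.Agent.Helper29.CW Pool.Agent.Helper29.GW Pool.Agent.Helper58.QD

/-- Gap theorem for the width of the models of a sentence `φ` of MSO₂ (second-order quantifiers over
sets of elements and over subsets of the relations) in finitely many relation symbols; for the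
clique-width, `φ` is a sentence of MSO (quantifiers over sets of elements) and the arities are at most
`2`. The width `μ` is one of: the number of vertices of a longest path, the tree-width, the
clique-width; `E d t` is the tower of height `d` with top `t`; `PolyHier` is the polynomial-time
hierarchy PH, for sets of positive integers in binary.
(1) Either `μ` is bounded by a constant on the finite models of `φ`, and then the spectrum of `φ` is
ultimately periodic; or for some `d` there are infinitely many `n` such that `φ` has a model with `n`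
elements whose width is greater than the `d`-fold iterated logarithm of `n`.
(2) Let `WSpectrum mon μ w A` say that `A` is the spectrum of such a sentence (of an MSO sentence if
`mon` is `true`) all of whose models with `n` elements have width at most `w n`, and
`WidthSpectrum μ w A` the same for a first-order sentence. If `w n` is at least the `d`-fold iterated
logarithm of `n`, for some `d` and all large `n`, then some set `A` with `WSpectrum true μ w A` is
not in PH; all sets `A` with `WidthSpectrum μ w A` are rudimentary if and only if the spectra are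
exactly the rudimentary sets of positive integers; and all of them are in PH if and only if all
spectra are. If `w n` is at most the `d`-fold iterated logarithm for every `d` and all large `n`, then
all sets `A` with `WSpectrum false μ w A` are ultimately periodic, and spectra for a constant bound
`L`.
(3) The inclusions of these classes. -/
theorem result (μ : Width) :
    (∀ (S : Type) (_ : Finite S) (ar : S → ℕ) (φ : GFm S ar 0),
      (μ = Width.clique → φ.Mon ∧ ∀ s, ar s ≤ 2) →
      ((∃ L, ∀ (n : ℕ) (I : Interp S ar (Fin n)), 1 ≤ n → GSat I φ → WidthLe μ I L) ∧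
        UltPeriodic {n : ℕ | 1 ≤ n ∧ ∃ I : Interp S ar (Fin n), GSat I φ}) ∨
      ∃ d, ∀ N, ∃ n, N ≤ n ∧ ∃ I : Interp S ar (Fin n), GSat I φ ∧
        ∀ t, WidthLe μ I t → n < E d t) ∧
    (∀ w : ℕ → ℕ,
      ((∃ d, ∀ᶠ n in atTop, n ≤ E d (w n)) →
        (∃ A, WSpectrum true μ w A ∧ ¬ PolyHier A) ∧
        ((∀ A : Set ℕ, WidthSpectrum μ w A → IsRudimentary A) ↔
          ∀ A : Set ℕ, IsSpectrum A ↔ (IsRudimentary A ∧ 0 ∉ A)) ∧
        ((∀ A : Set ℕ, WidthSpectrum μ w A → PolyHier A) ↔
          ∀ A : Set ℕ, IsSpectrum A → PolyHier A)) ∧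
      ((∀ d, ∀ᶠ n in atTop, E d (w n) ≤ n) →
        ∀ A : Set ℕ, WSpectrum false μ w A → UltPeriodic A ∧
          ∃ L, WSpectrum false μ (fun _ => L) A)) ∧
    (∀ (w : ℕ → ℕ) (A : Set ℕ), (WidthSpectrum μ w A → WSpectrum true μ w A ∧ IsSpectrum A) ∧
      (WSpectrum true μ w A → WSpectrum false μ w A)) ∧
    ∀ A : Set ℕ, IsRudimentary A → PolyHier A := by
  refine ⟨fun _ _ _ φ hμ => width_gap_g μ φ hμ, fun w => ⟨fun h => ⟨?_, ?_, ?_⟩,
    width_tame_g μ w⟩,
    fun w A => ⟨fun hA => ⟨wspectrum_of_m (Pool.Agent.Helper20.MW.mwidth_fo hA),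
      Pool.Agent.Helper29.PHW.width_isSpectrum hA⟩,
      fun hA => hA.weaken⟩, Pool.Agent.Helper14.QG.rudPH⟩
  · obtain ⟨A, hA, hA'⟩ := Pool.Agent.Helper29.PHW.mwidth_wildPH μ w h
    exact ⟨A, wspectrum_of_m hA, hA'⟩
  · exact ((Pool.Agent.Helper20.Gap.gap_main μ).2 w).1 h
  · exact Pool.Agent.Helper29.PHW.width_ph_iff μ w h

end Pool.Agent.Results.MP_023469_lc.WidthGap
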